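import Mathlib

/-! Nearly orthogonal words and the number of words biased towards a given word. -/

set_option autoImplicit false

namespace Pool.Agent.X43.GA

open Finset

/-- sign of a bit -/
noncomputable def sg (b : Bool) : ℝ := if b then 1 else -1

theorem sg_sq (b : Bool) : sg b * sg b = 1 := by cases b <;> simp [sg]

theorem sg_abs (b : Bool) : |sg b| = 1 := by cases b <;> simp [sg]

/-- inner product of the first `N` signs -/
noncomputable def ip (N : ℕ) (u v : ℕ → Bool) : ℝ := ∑ i ∈ range N, sg (u i) * sg (v i)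

theorem ip_comm (N : ℕ) (u v : ℕ → Bool) : ip N u v = ip N v u := by
  unfold ip; exact sum_congr rfl fun i _ => mul_comm _ _

theorem ip_self (N : ℕ) (u : ℕ → Bool) : ip N u u = N := by
  unfold ip; simp [sg_sq]

/-- number of agreements -/
def ag (u v : ℕ → Bool) (N : ℕ) : ℕ := Nat.count (fun i => u i = v i) N

theorem ip_ag (N : ℕ) (u v : ℕ → Bool) : ip N u v = 2 * (ag u v N : ℝ) - N := by
  induction N with
  | zero => simp [ip, ag]
  | succ N ih =>
    have h1 : ip (N + 1) u v = ip N u v + sg (u N) * sg (v N) := sum_range_succ _ _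
    have h2 : ag u v (N + 1) = ag u v N + if u N = v N then 1 else 0 := Nat.count_succ _ _
    rw [h1, h2, ih]
    cases hu : u N <;> cases hv : v N <;> simp [sg] <;> ring

theorem expsum (N : ℕ) (v : ℕ → Bool) (t : ℝ) :
    ∑ S ∈ (range N).powerset, Real.exp (t * ip N (fun i => decide (i ∈ S)) v) ≤
      2 ^ N * Real.exp (N * (t ^ 2 / 2)) := by
  have h1 : ∀ S ∈ (range N).powerset, Real.exp (t * ip N (fun i => decide (i ∈ S)) v) =
      (∏ i ∈ S, Real.exp (t * sg (v i))) * ∏ i ∈ range N \ S, Real.exp (-(t * sg (v i))) := by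
    intro S hS
    rw [mem_powerset] at hS
    rw [← Real.exp_sum, ← Real.exp_sum, ← Real.exp_add]
    congr 1
    unfold ip
    rw [mul_sum, ← sum_sdiff hS, add_comm]
    congr 1
    · refine sum_congr rfl fun i hi => ?_
      simp [sg, hi]
    · refine sum_congr rfl fun i hi => ?_
      have : i ∉ S := (mem_sdiff.1 hi).2
      cases hv : v i <;> simp [sg, this]
  rw [sum_congr rfl h1, ← Finset.prod_add]
  have h2 : ∀ i ∈ range N, Real.exp (t * sg (v i)) + Real.exp (-(t * sg (v i))) ≤
      2 * Real.exp (t ^ 2 / 2) := by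
    intro i _
    have h3 : Real.exp (t * sg (v i)) + Real.exp (-(t * sg (v i))) = 2 * Real.cosh t := by
      rw [Real.cosh_eq]
      cases v i <;> simp [sg] <;> ring
    rw [h3]
    have := Real.cosh_le_exp_half_sq t
    linarith
  calc ∏ i ∈ range N, (Real.exp (t * sg (v i)) + Real.exp (-(t * sg (v i))))
      ≤ ∏ _i ∈ range N, (2 * Real.exp (t ^ 2 / 2)) :=
        prod_le_prod (fun i _ => by positivity) h2
    _ = 2 ^ N * Real.exp (N * (t ^ 2 / 2)) := by
        rw [prod_const, card_range, mul_pow, ← Real.exp_nat_mul]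

theorem chern (N : ℕ) (v : ℕ → Bool) (t s : ℝ) :
    (((range N).powerset.filter fun S => t * s ≤ t * ip N (fun i => decide (i ∈ S)) v).card : ℝ)
      ≤ 2 ^ N * Real.exp (N * (t ^ 2 / 2) - t * s) := by
  have h1 := expsum N v t
  have h2 : ((range N).powerset.filter fun S =>
      t * s ≤ t * ip N (fun i => decide (i ∈ S)) v).card • Real.exp (t * s) ≤
      ∑ S ∈ (range N).powerset, Real.exp (t * ip N (fun i => decide (i ∈ S)) v) := by
    refine le_trans (card_nsmul_le_sum _ _ _ fun S hS => ?_)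
      (sum_le_sum_of_subset_of_nonneg (filter_subset _ _) fun _ _ _ => (Real.exp_pos _).le)
    rw [mem_filter] at hS
    exact Real.exp_le_exp.2 hS.2
  rw [nsmul_eq_mul] at h2
  rw [Real.exp_sub, ← mul_div_assoc, le_div_iff₀ (Real.exp_pos _)]
  linarith

theorem chern2 (N : ℕ) (v : ℕ → Bool) {δ : ℝ} (hδ : 0 < δ) :
    (((range N).powerset.filter fun S => δ * N ≤ |ip N (fun i => decide (i ∈ S)) v|).card : ℝ)
      ≤ 2 * (2 ^ N * Real.exp (-(δ ^ 2 * N / 2))) := by
  have h1 := chern N v δ (δ * N)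
  have h2 := chern N v (-δ) (-(δ * N))
  have e1 : (N : ℝ) * (δ ^ 2 / 2) - δ * (δ * N) = -(δ ^ 2 * N / 2) := by ring
  have e2 : (N : ℝ) * ((-δ) ^ 2 / 2) - -δ * -(δ * N) = -(δ ^ 2 * N / 2) := by ring
  rw [e1] at h1
  rw [e2] at h2
  have h3 : ((range N).powerset.filter fun S => δ * N ≤ |ip N (fun i => decide (i ∈ S)) v|) ⊆
      ((range N).powerset.filter fun S => δ * (δ * N) ≤ δ * ip N (fun i => decide (i ∈ S)) v) ∪
      ((range N).powerset.filter fun S =>
        -δ * -(δ * N) ≤ -δ * ip N (fun i => decide (i ∈ S)) v) := by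
    intro S hS
    rw [mem_filter] at hS
    rw [mem_union, mem_filter, mem_filter]
    rcases le_abs.1 hS.2 with h | h
    · left; exact ⟨hS.1, mul_le_mul_of_nonneg_left h hδ.le⟩
    · right; refine ⟨hS.1, ?_⟩
      have := mul_le_mul_of_nonneg_left h hδ.le
      linarith
  have h4 := (card_le_card h3).trans (card_union_le _ _)
  have h5 : (((range N).powerset.filter fun S =>
      δ * N ≤ |ip N (fun i => decide (i ∈ S)) v|).card : ℝ) ≤
      ((range N).powerset.filter fun S =>
        δ * (δ * N) ≤ δ * ip N (fun i => decide (i ∈ S)) v).card +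
      ((range N).powerset.filter fun S =>
        -δ * -(δ * N) ≤ -δ * ip N (fun i => decide (i ∈ S)) v).card := by exact_mod_cast h4
  linarith

theorem greedy (N : ℕ) {δ : ℝ} (hδ : 0 < δ) (K : ℕ)
    (hK : 2 * (K : ℝ) * Real.exp (-(δ ^ 2 * N / 2)) < 1) :
    ∃ c : ℕ → ℕ → Bool, ∀ i < K, ∀ j < i, |ip N (c i) (c j)| < δ * N := by
  induction K with
  | zero => exact ⟨fun _ _ => false, fun i hi => absurd hi (by omega)⟩
  | succ K ih =>
    have hE := Real.exp_pos (-(δ ^ 2 * N / 2))
    push_cast at hK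
    obtain ⟨c, hc⟩ := ih (by nlinarith)
    have hbad : ∃ S ∈ (range N).powerset, ∀ j < K,
        |ip N (fun i => decide (i ∈ S)) (c j)| < δ * N := by
      by_contra hcon
      push Not at hcon
      have h1 : (range N).powerset ⊆ (range K).biUnion fun j =>
          (range N).powerset.filter fun S =>
            δ * N ≤ |ip N (fun i => decide (i ∈ S)) (c j)| := by
        intro S hS
        obtain ⟨j, hj, hj2⟩ := hcon S hS
        rw [mem_biUnion]
        exact ⟨j, mem_range.2 hj, mem_filter.2 ⟨hS, hj2⟩⟩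
      have h2 := card_le_card h1
      have h3 := h2.trans card_biUnion_le
      rw [card_powerset, card_range] at h3
      have h4 : ((2 ^ N : ℕ) : ℝ) ≤ ∑ j ∈ range K, (((range N).powerset.filter fun S =>
            δ * N ≤ |ip N (fun i => decide (i ∈ S)) (c j)|).card : ℝ) := by
        exact_mod_cast h3
      have h5 : ∑ j ∈ range K, (((range N).powerset.filter fun S =>
            δ * N ≤ |ip N (fun i => decide (i ∈ S)) (c j)|).card : ℝ) ≤
          ∑ _j ∈ range K, (2 * (2 ^ N * Real.exp (-(δ ^ 2 * N / 2)))) :=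
        sum_le_sum fun j _ => chern2 N (c j) hδ
      rw [sum_const, card_range, nsmul_eq_mul] at h5
      push_cast at h4
      have h6 : (0 : ℝ) < 2 ^ N := by positivity
      have h7 : (K : ℝ) * (2 * (2 ^ N * Real.exp (-(δ ^ 2 * N / 2)))) =
          2 ^ N * (2 * K * Real.exp (-(δ ^ 2 * N / 2))) := by ring
      have h8 : 2 * (K : ℝ) * Real.exp (-(δ ^ 2 * N / 2)) < 1 := by nlinarith
      have h9 : (2 : ℝ) ^ N * (2 * K * Real.exp (-(δ ^ 2 * N / 2))) < 2 ^ N * 1 :=
        mul_lt_mul_of_pos_left h8 h6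
      linarith
    obtain ⟨S, -, hS⟩ := hbad
    refine ⟨Function.update c K fun i => decide (i ∈ S), fun i hi j hj => ?_⟩
    rcases Nat.lt_succ_iff_lt_or_eq.1 hi with h | h
    · rw [Function.update_of_ne (by omega), Function.update_of_ne (by omega)]
      exact hc i h j hj
    · subst h
      rw [Function.update_self, Function.update_of_ne (by omega)]
      exact hS j hj

theorem listBound {ι : Type*} (P : Finset ι) (N : ℕ) (hN : 0 < N) (c : ι → ℕ → Bool)
    (y : ℕ → Bool) {δ η : ℝ} (hη : 0 ≤ η) (hδ : 0 ≤ δ)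
    (h1 : ∀ i ∈ P, ∀ j ∈ P, i ≠ j → |ip N (c i) (c j)| ≤ δ * N)
    (h2 : ∀ i ∈ P, η * N ≤ |ip N (c i) y|) : (P.card : ℝ) * (η ^ 2 - δ) ≤ 1 := by
  classical
  set e : ι → ℝ := fun i => if 0 ≤ ip N (c i) y then 1 else -1 with he
  have he1 : ∀ i, |e i| = 1 := fun i => by simp only [he]; split_ifs <;> simp
  have he2 : ∀ i, e i * ip N (c i) y = |ip N (c i) y| := by
    intro i
    simp only [he]
    split_ifs with h
    · rw [one_mul, abs_of_nonneg h]
    · rw [abs_of_neg (not_le.1 h)]; ring
  have hN' : (0 : ℝ) < N := by exact_mod_cast hN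
  -- lower bound
  have hl : (P.card : ℝ) * (η * N) ≤ ∑ i ∈ P, e i * ip N (c i) y := by
    rw [← nsmul_eq_mul]
    refine card_nsmul_le_sum _ _ _ fun i hi => ?_
    rw [he2]; exact h2 i hi
  have hsw : ∑ i ∈ P, e i * ip N (c i) y =
      ∑ l ∈ range N, (∑ i ∈ P, e i * sg (c i l)) * sg (y l) := by
    unfold ip
    simp_rw [mul_sum]
    rw [sum_comm]
    refine sum_congr rfl fun l _ => ?_
    rw [sum_mul]
    exact sum_congr rfl fun i _ => by ring
  have hcs : (∑ i ∈ P, e i * ip N (c i) y) ^ 2 ≤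
      (∑ l ∈ range N, (∑ i ∈ P, e i * sg (c i l)) ^ 2) * N := by
    rw [hsw]
    refine (sum_mul_sq_le_sq_mul_sq _ _ _).trans (le_of_eq ?_)
    congr 1
    simp [pow_two, sg_sq]
  have hsq : ∑ l ∈ range N, (∑ i ∈ P, e i * sg (c i l)) ^ 2 =
      ∑ i ∈ P, ∑ j ∈ P, e i * e j * ip N (c i) (c j) := by
    unfold ip
    simp_rw [pow_two, sum_mul_sum, mul_sum]
    rw [sum_comm]
    refine sum_congr rfl fun i _ => ?_
    rw [sum_comm]
    refine sum_congr rfl fun j _ => sum_congr rfl fun l _ => by ring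
  have hub : ∑ i ∈ P, ∑ j ∈ P, e i * e j * ip N (c i) (c j) ≤
      P.card * (N + P.card * (δ * N)) := by
    rw [← nsmul_eq_mul]
    refine sum_le_card_nsmul _ _ _ fun i hi => ?_
    calc ∑ j ∈ P, e i * e j * ip N (c i) (c j)
        ≤ ∑ j ∈ P, ((if j = i then (N : ℝ) else 0) + δ * N) := by
          refine sum_le_sum fun j hj => ?_
          have h3 : e i * e j * ip N (c i) (c j) ≤ |ip N (c i) (c j)| := by
            refine (le_abs_self _).trans (le_of_eq ?_)
            rw [abs_mul, abs_mul, he1, he1, one_mul, one_mul]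
          by_cases hij : j = i
          · subst hij
            rw [if_pos rfl]
            rw [ip_self, abs_of_pos hN'] at h3
            rw [ip_self]
            have := mul_nonneg hδ hN'.le
            linarith
          · rw [if_neg hij]
            have := h1 i hi j hj (Ne.symm hij)
            linarith
      _ = N + P.card * (δ * N) := by
          rw [sum_add_distrib, sum_ite_eq' P i, if_pos hi, sum_const, nsmul_eq_mul]
  have hfin : ((P.card : ℝ) * (η * N)) ^ 2 ≤ P.card * (N + P.card * (δ * N)) * N := by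
    calc ((P.card : ℝ) * (η * N)) ^ 2 ≤ (∑ i ∈ P, e i * ip N (c i) y) ^ 2 := by
          refine pow_le_pow_left₀ (by positivity) hl 2
      _ ≤ _ := hcs
      _ ≤ _ := by
          rw [hsq]
          exact mul_le_mul_of_nonneg_right hub hN'.le
  rcases Nat.eq_zero_or_pos P.card with h0 | h0
  · rw [h0]; simp
  · have h0' : (0 : ℝ) < P.card := by exact_mod_cast h0
    have e1 : ((P.card : ℝ) * (η * N)) ^ 2 - P.card * (N + P.card * (δ * N)) * N =
        (P.card * N ^ 2) * (P.card * (η ^ 2 - δ) - 1) := by ring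
    have e2 : (P.card * (N : ℝ) ^ 2) * (P.card * (η ^ 2 - δ) - 1) ≤ 0 := by
      rw [← e1]; linarith
    have e3 : (0 : ℝ) < P.card * (N : ℝ) ^ 2 := by positivity
    by_contra hcon
    push Not at hcon
    have : 0 < (P.card * (N : ℝ) ^ 2) * (P.card * (η ^ 2 - δ) - 1) :=
      mul_pos e3 (by linarith)
    linarith

end Pool.Agent.X43.GA
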