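import Pool.Agent.X43.GA.A

/-! Parameters at level `a`: words of length `2^a`, `2^(2^(a/2))` code words. -/

set_option autoImplicit false

namespace Pool.Agent.X43.GA

/-- absolute value of (agreements minus disagreements) -/
def bias (u v : ℕ → Bool) (N : ℕ) : ℕ := (2 * ag u v N - N) + (N - 2 * ag u v N)

theorem bias_ip (u v : ℕ → Bool) (N : ℕ) : (bias u v N : ℝ) = |ip N u v| := by
  rw [ip_ag]
  unfold bias
  rcases le_total N (2 * ag u v N) with h | h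
  · have h1 : N - 2 * ag u v N = 0 := by omega
    rw [h1, Nat.add_zero, Nat.cast_sub h, abs_of_nonneg]
    · push_cast; ring
    · have : (N : ℝ) ≤ 2 * (ag u v N : ℝ) := by exact_mod_cast h
      linarith
  · have h1 : 2 * ag u v N - N = 0 := by omega
    rw [h1, Nat.zero_add, Nat.cast_sub h, abs_of_nonpos]
    · push_cast; ring
    · have : 2 * (ag u v N : ℝ) ≤ N := by exact_mod_cast h
      linarith

theorem cube2 (m : ℕ) (hm : 20 ≤ m) : 8 * (2 * m + 2) ^ 2 * 2 + 1 ≤ 2 ^ m := by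
  induction m, hm using Nat.le_induction with
  | base => norm_num
  | succ m hm ih =>
    rw [pow_succ 2 m]
    have e1 : 8 * (2 * (m + 1) + 2) ^ 2 * 2 + 1 = 64 * m ^ 2 + 256 * m + 257 := by ring
    have e2 : 8 * (2 * m + 2) ^ 2 * 2 + 1 = 64 * m ^ 2 + 128 * m + 65 := by ring
    rw [e2] at ih
    rw [e1]
    have : 20 * m ≤ m ^ 2 := by rw [pow_two]; exact Nat.mul_le_mul_right _ hm
    omega

theorem level_ineq {a : ℕ} (ha : 40 ≤ a) : 8 * (a + 1) ^ 2 * (2 ^ (a / 2) + 1) < 2 ^ a := by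
  have h1 := cube2 (a / 2) (by omega)
  have h2 : a + 1 ≤ 2 * (a / 2) + 2 := by omega
  have h3 : 2 ^ (a / 2) * 2 ^ (a / 2) ≤ 2 ^ a := by
    rw [← pow_add]; exact Nat.pow_le_pow_right (by norm_num) (by omega)
  have h4 : 1 ≤ 2 ^ (a / 2) := Nat.one_le_two_pow
  calc 8 * (a + 1) ^ 2 * (2 ^ (a / 2) + 1)
      ≤ 8 * (2 * (a / 2) + 2) ^ 2 * (2 ^ (a / 2) * 2) := by
        refine Nat.mul_le_mul (Nat.mul_le_mul_left _ (Nat.pow_le_pow_left h2 2)) (by omega)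
    _ = (8 * (2 * (a / 2) + 2) ^ 2 * 2) * 2 ^ (a / 2) := by ring
    _ < (8 * (2 * (a / 2) + 2) ^ 2 * 2 + 1) * 2 ^ (a / 2) :=
        Nat.mul_lt_mul_of_pos_right (Nat.lt_succ_self _) (by omega)
    _ ≤ 2 ^ (a / 2) * 2 ^ (a / 2) := Nat.mul_le_mul_right _ h1
    _ ≤ 2 ^ a := h3

theorem exists_words {a : ℕ} (ha : 40 ≤ a) : ∃ c : ℕ → ℕ → Bool,
    ∀ i < 2 ^ 2 ^ (a / 2), ∀ j < i, 2 * (a + 1) * bias (c i) (c j) (2 ^ a) ≤ 2 ^ a := by
  have ha0 : (0 : ℝ) < (a : ℝ) + 1 := by positivity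
  set δ : ℝ := 1 / (2 * ((a : ℝ) + 1)) with hδ
  have hδ0 : 0 < δ := by positivity
  have hK : 2 * ((2 ^ 2 ^ (a / 2) : ℕ) : ℝ) * Real.exp (-(δ ^ 2 * ((2 ^ a : ℕ) : ℝ) / 2)) < 1 := by
    have h1 : (8 * ((a : ℝ) + 1) ^ 2 * (2 ^ (a / 2) + 1) : ℝ) < 2 ^ a := by
      exact_mod_cast level_ineq ha
    have h2 : ((2 : ℝ) ^ (a / 2) + 1) < δ ^ 2 * ((2 ^ a : ℕ) : ℝ) / 2 := by
      rw [hδ]
      push_cast
      have e : (1 / (2 * ((a : ℝ) + 1))) ^ 2 * 2 ^ a / 2 = 2 ^ a / (8 * ((a : ℝ) + 1) ^ 2) := by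
        field_simp; ring
      rw [e, lt_div_iff₀ (by positivity)]
      linarith
    have h3 : (2 : ℝ) * ((2 ^ 2 ^ (a / 2) : ℕ) : ℝ) ≤ Real.exp ((2 : ℝ) ^ (a / 2) + 1) := by
      have h4 : (2 : ℝ) ≤ Real.exp 1 := by
        have := Real.add_one_le_exp (1 : ℝ)
        linarith
      have h5 : (2 : ℝ) * ((2 ^ 2 ^ (a / 2) : ℕ) : ℝ) = 2 ^ (2 ^ (a / 2) + 1) := by
        push_cast; ring
      rw [h5]
      calc (2 : ℝ) ^ (2 ^ (a / 2) + 1) ≤ (Real.exp 1) ^ (2 ^ (a / 2) + 1) :=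
            pow_le_pow_left₀ (by norm_num) h4 _
        _ = Real.exp ((2 : ℝ) ^ (a / 2) + 1) := by
            rw [← Real.exp_nat_mul]; push_cast; ring_nf
    calc 2 * ((2 ^ 2 ^ (a / 2) : ℕ) : ℝ) * Real.exp (-(δ ^ 2 * ((2 ^ a : ℕ) : ℝ) / 2))
        ≤ Real.exp ((2 : ℝ) ^ (a / 2) + 1) * Real.exp (-(δ ^ 2 * ((2 ^ a : ℕ) : ℝ) / 2)) :=
          mul_le_mul_of_nonneg_right h3 (Real.exp_pos _).le
      _ = Real.exp (((2 : ℝ) ^ (a / 2) + 1) - δ ^ 2 * ((2 ^ a : ℕ) : ℝ) / 2) := by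
          rw [← Real.exp_add]; ring_nf
      _ < Real.exp 0 := Real.exp_lt_exp.2 (by linarith)
      _ = 1 := Real.exp_zero
  obtain ⟨c, hc⟩ := greedy (2 ^ a) hδ0 (2 ^ 2 ^ (a / 2)) hK
  refine ⟨c, fun i hi j hj => ?_⟩
  have h1 := hc i hi j hj
  rw [← bias_ip] at h1
  have h2 : 2 * ((a : ℝ) + 1) * (bias (c i) (c j) (2 ^ a) : ℝ) ≤ ((2 ^ a : ℕ) : ℝ) := by
    have e : 2 * ((a : ℝ) + 1) * (δ * ((2 ^ a : ℕ) : ℝ)) = ((2 ^ a : ℕ) : ℝ) := by
      rw [hδ]; field_simp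
    have := mul_le_mul_of_nonneg_left h1.le (by positivity : (0 : ℝ) ≤ 2 * ((a : ℝ) + 1))
    linarith
  exact_mod_cast h2

/-- few code words are biased towards a given word -/
theorem few_biased {a K : ℕ} {c : ℕ → ℕ → Bool}
    (hc : ∀ i < K, ∀ j < i, 2 * (a + 1) * bias (c i) (c j) (2 ^ a) ≤ 2 ^ a) (y : ℕ → Bool) :
    ((Finset.range K).filter
      (fun v => (2 ^ a) ^ 2 < (a + 1) * bias (c v) y (2 ^ a) ^ 2)).card ≤ 2 * (a + 1) := by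
  have ha0 : (0 : ℝ) < (a : ℝ) + 1 := by positivity
  set δ : ℝ := 1 / (2 * ((a : ℝ) + 1)) with hδ
  set η : ℝ := 1 / Real.sqrt ((a : ℝ) + 1) with hη
  have hη2 : η ^ 2 = 1 / ((a : ℝ) + 1) := by
    rw [hη, div_pow, one_pow, Real.sq_sqrt ha0.le]
  have h := listBound ((Finset.range K).filter
      (fun v => (2 ^ a) ^ 2 < (a + 1) * bias (c v) y (2 ^ a) ^ 2)) (2 ^ a) (by positivity) c y
      (δ := δ) (η := η) (by positivity) (by positivity) ?_ ?_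
  · rw [hη2, hδ] at h
    have e : 1 / ((a : ℝ) + 1) - 1 / (2 * ((a : ℝ) + 1)) = 1 / (2 * ((a : ℝ) + 1)) := by
      field_simp; norm_num
    rw [e, mul_one_div, div_le_one (by positivity)] at h
    exact_mod_cast h
  · have key : ∀ i < K, ∀ j < i, |ip (2 ^ a) (c i) (c j)| ≤ δ * ((2 ^ a : ℕ) : ℝ) := by
      intro i hi j hj
      have h1 := hc i hi j hj
      have h2 : 2 * ((a : ℝ) + 1) * (bias (c i) (c j) (2 ^ a) : ℝ) ≤ ((2 ^ a : ℕ) : ℝ) := by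
        exact_mod_cast h1
      rw [← bias_ip, hδ, one_div_mul_eq_div, le_div_iff₀ (by positivity)]
      linarith
    intro i hi j hj hij
    rw [Finset.mem_filter, Finset.mem_range] at hi hj
    rcases Nat.lt_or_gt_of_ne hij with h | h
    · rw [ip_comm]; exact key j hj.1 i h
    · exact key i hi.1 j h
  · intro i hi
    rw [Finset.mem_filter] at hi
    have h1 : (((2 ^ a : ℕ) : ℝ)) ^ 2 < ((a : ℝ) + 1) * (bias (c i) y (2 ^ a) : ℝ) ^ 2 := by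
      exact_mod_cast hi.2
    rw [← bias_ip]
    refine le_of_sq_le_sq ?_ (by positivity)
    rw [mul_pow, hη2, one_div_mul_eq_div, div_le_iff₀ ha0]
    linarith

end Pool.Agent.X43.GA
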