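import Pool.Agent.X43.GA.B
import Pool.Agent.X43.QE.C

/-! Blocks, computable code words, and the evading index. -/

set_option autoImplicit false

namespace Pool.Agent.X43.GA

open Pool.Agent.Helper446.RE Pool.Agent.Helper298.Oracle Encodable Filter
open Pool.Agent.X43.QE (hist hist_getD hist_length dec enc enc_lt enc_dec count_congr' ccount cenc
  nat_rec_comp)

attribute [local fun_prop] QE.cdiv QE.cmod QE.cpow QE.csqrt QE.cgetD QE.cdec

/-- start of block `n`, whose length is `2 ^ sqrt n` -/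
def st : ℕ → ℕ
  | 0 => 0
  | n + 1 => st n + 2 ^ Nat.sqrt n

theorem cst {α : Type*} [Primcodable α] {f : α → ℕ} (hf : Computable f) :
    Computable fun x => st (f x) := by
  have h := nat_rec_comp (f := f) (g := fun _ : α => 0)
    (h := fun (_ : α) y ih => ih + 2 ^ Nat.sqrt y) hf (Computable.const 0) (by fun_prop)
  refine h.of_eq fun a => ?_
  generalize f a = n
  induction n with
  | zero => rfl
  | succ n ih => simp only [st]; rw [← ih]

attribute [local fun_prop] cst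

theorem st_succ (n : ℕ) : st (n + 1) = st n + 2 ^ Nat.sqrt n := rfl

theorem st_strictMono : StrictMono st := by
  refine strictMono_nat_of_lt_succ fun n => ?_
  rw [st_succ]
  have : 0 < 2 ^ Nat.sqrt n := by positivity
  omega

theorem le_st (n : ℕ) : n ≤ st n := st_strictMono.id_le n

/-- the block containing `m` -/
def bl (m : ℕ) : ℕ := Nat.count (fun i => st (i + 1) ≤ m) m

theorem bl_eq {m n : ℕ} (h1 : st n ≤ m) (h2 : m < st (n + 1)) : bl m = n := by
  unfold bl
  rw [Nat.count_eq_card_filter_range]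
  have : (Finset.range m).filter (fun i => st (i + 1) ≤ m) = Finset.range n := by
    ext i
    rw [Finset.mem_filter, Finset.mem_range, Finset.mem_range]
    constructor
    · rintro ⟨_, h⟩
      by_contra hc
      have : st (n + 1) ≤ st (i + 1) := st_strictMono.monotone (by omega)
      omega
    · intro h
      have h3 : st (i + 1) ≤ st n := st_strictMono.monotone (by omega)
      have h4 := le_st n
      exact ⟨by omega, by omega⟩
  rw [this, Finset.card_range]

theorem cbl {α : Type*} [Primcodable α] {f : α → ℕ} (hf : Computable f) :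
    Computable fun x => bl (f x) := by
  unfold bl
  exact ccount (p := fun x i => st (i + 1) ≤ f x)
    (cp_le (f := fun x : α × ℕ => st (x.2 + 1)) (by fun_prop) (by fun_prop)) hf

theorem exists_bl (m : ℕ) : ∃ n, st n ≤ m ∧ m < st (n + 1) := by
  classical
  have hex : ∃ n, m < st (n + 1) := ⟨m, by have := le_st (m + 1); omega⟩
  refine ⟨Nat.find hex, ?_, Nat.find_spec hex⟩
  rcases Nat.eq_zero_or_pos (Nat.find hex) with h0 | h0
  · rw [h0]; exact Nat.zero_le _
  · have h1 := Nat.find_min hex (m := Nat.find hex - 1) (by omega)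
    have h2 : Nat.find hex - 1 + 1 = Nat.find hex := by omega
    rw [h2] at h1
    omega

/-- words of a code -/
def wd (C : List (List Bool)) (v l : ℕ) : Bool := (C.getD v []).getD l false

theorem cgetDg {α β : Type*} [Primcodable α] [Primcodable β] (d : β) {f : α → List β}
    {g : α → ℕ} (hf : Computable f) (hg : Computable g) :
    Computable (fun x => (f x).getD (g x) d) := (Primrec.list_getD d).to_comp.comp hf hg

theorem cwd {α : Type*} [Primcodable α] {C : α → List (List Bool)} {v l : α → ℕ}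
    (hC : Computable C) (hv : Computable v) (hl : Computable l) :
    Computable fun x => wd (C x) (v x) (l x) := by
  unfold wd
  exact cgetDg false (cgetDg [] hC hv) hl

theorem cbias {α : Type*} [Primcodable α] {u v : α → ℕ → Bool} {N : α → ℕ}
    (hu : Computable fun x : α × ℕ => u x.1 x.2) (hv : Computable fun x : α × ℕ => v x.1 x.2)
    (hN : Computable N) : Computable fun x => bias (u x) (v x) (N x) := by
  have h1 : Computable fun x => ag (u x) (v x) (N x) := by
    unfold ag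
    exact ccount (p := fun x i => u x i = v x i) (cp_eq hu hv) hN
  unfold bias
  fun_prop

theorem bias_congr {u u' v v' : ℕ → Bool} {N : ℕ} (hu : ∀ l < N, u l = u' l)
    (hv : ∀ l < N, v l = v' l) : bias u v N = bias u' v' N := by
  unfold bias ag
  rw [count_congr' (p := fun i => u i = v i) (q := fun i => u' i = v' i)
    (fun i hi => by rw [hu i hi, hv i hi])]

/-- `C` is a good code at level `a` -/
def CR (a : ℕ) (C : List (List Bool)) : Prop :=
  a < 40 ∨ ∀ i < 2 ^ 2 ^ (a / 2), ∀ j < i, 2 * (a + 1) * bias (wd C i) (wd C j) (2 ^ a) ≤ 2 ^ a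

theorem re_CR : REPred fun x : ℕ × List (List Bool) => CR x.1 x.2 := by
  unfold CR
  refine or (lt (by fun_prop) (by fun_prop)) ?_
  refine all_lt (p := fun (x : ℕ × List (List Bool)) i =>
    ∀ j < i, 2 * (x.1 + 1) * bias (wd x.2 i) (wd x.2 j) (2 ^ x.1) ≤ 2 ^ x.1) ?_ (by fun_prop)
  refine all_lt (p := fun (x : (ℕ × List (List Bool)) × ℕ) j =>
    2 * (x.1.1 + 1) * bias (wd x.1.2 x.2) (wd x.1.2 j) (2 ^ x.1.1) ≤ 2 ^ x.1.1) ?_ (by fun_prop)
  refine le (cmul (by fun_prop) (cbias ?_ ?_ (by fun_prop))) (by fun_prop)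
  · exact cwd (by fun_prop) (by fun_prop) (by fun_prop)
  · exact cwd (by fun_prop) (by fun_prop) (by fun_prop)

theorem getD_map_range {β : Type*} (f : ℕ → β) (d : β) {N i : ℕ} (h : i < N) :
    ((List.range N).map f).getD i d = f i := by
  simp [h, List.getD]

theorem exists_cod : ∃ cod : ℕ → List (List Bool), Computable cod ∧ ∀ a, CR a (cod a) := by
  obtain ⟨f, hf, h1, h2⟩ := uniformize re_CR
  have hd : ∀ a, (f a).Dom := by
    intro a
    rw [h1]
    by_cases ha : a < 40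
    · exact ⟨[], Or.inl ha⟩
    · obtain ⟨c, hc⟩ := exists_words (not_lt.1 ha)
      set C : List (List Bool) := (List.range (2 ^ 2 ^ (a / 2))).map
        fun i => (List.range (2 ^ a)).map (c i) with hC
      have hw : ∀ i < 2 ^ 2 ^ (a / 2), ∀ l < 2 ^ a, wd C i l = c i l := by
        intro i hi l hl
        unfold wd
        rw [hC, getD_map_range _ _ hi, getD_map_range _ _ hl]
      refine ⟨C, Or.inr fun i hi j hj => ?_⟩
      rw [bias_congr (hw i hi) (hw j (hj.trans hi))]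
      exact hc i hi j hj
  exact ⟨fun a => (f a).get (hd a), hf.of_eq_tot fun a => Part.get_mem _,
    fun a => h2 a _ (Part.get_mem _)⟩

/-- the bits of a block, read off from a list -/
def yb (L : List ℕ) (s l : ℕ) : Bool := decide (L.getD (s + l) 0 = 1)

theorem cyb {α : Type*} [Primcodable α] {L : α → List ℕ} {s l : α → ℕ}
    (hL : Computable L) (hs : Computable s) (hl : Computable l) :
    Computable fun x => yb (L x) (s x) (l x) := by
  unfold yb
  exact cdecide (cp_eq (by fun_prop) (Computable.const 1))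

/-- `l` lists all code words biased towards block `x.1` of `x.2` -/
def V2 (cod : ℕ → List (List Bool)) (x : ℕ × List ℕ) (l : List ℕ) : Prop :=
  x.1 < 1600 ∨ (l.length ≤ 2 * x.1 + 1 ∧ ∀ v < 2 ^ 2 ^ (Nat.sqrt x.1 / 2),
    (Nat.sqrt x.1 + 1) * bias (wd (cod (Nat.sqrt x.1)) v) (yb x.2 (st x.1))
      (2 ^ Nat.sqrt x.1) ^ 2 ≤ (2 ^ Nat.sqrt x.1) ^ 2 ∨ v ∈ l)

theorem re_V2 {cod : ℕ → List (List Bool)} (hcod : Computable cod) :
    REPred fun x : (ℕ × List ℕ) × List ℕ => V2 cod x.1 x.2 := by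
  unfold V2
  refine or (lt (by fun_prop) (by fun_prop)) (and (le (by fun_prop) (by fun_prop)) ?_)
  refine all_lt (p := fun (x : (ℕ × List ℕ) × List ℕ) v =>
    (Nat.sqrt x.1.1 + 1) * bias (wd (cod (Nat.sqrt x.1.1)) v) (yb x.1.2 (st x.1.1))
      (2 ^ Nat.sqrt x.1.1) ^ 2 ≤ (2 ^ Nat.sqrt x.1.1) ^ 2 ∨ v ∈ x.2) ?_ (by fun_prop)
  refine or (le ?_ (by fun_prop)) (mem_list (by fun_prop) (by fun_prop))
  have hb : Computable fun x : ((ℕ × List ℕ) × List ℕ) × ℕ =>
      bias (wd (cod (Nat.sqrt x.1.1.1)) x.2) (yb x.1.1.2 (st x.1.1.1))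
        (2 ^ Nat.sqrt x.1.1.1) := by
    refine cbias ?_ ?_ (by fun_prop)
    · exact cwd (hcod.comp (by fun_prop)) (by fun_prop) (by fun_prop)
    · exact cyb (by fun_prop) (by fun_prop) (by fun_prop)
  exact cmul (by fun_prop) (QE.cpow hb (Computable.const 2))

theorem exists_sel2 {cod : ℕ → List (List Bool)} (hcod : Computable cod)
    (hC : ∀ a, CR a (cod a)) :
    ∃ sel : ℕ × List ℕ → List ℕ, Computable sel ∧ ∀ x, V2 cod x (sel x) := by
  obtain ⟨f, hf, h1, h2⟩ := uniformize (re_V2 hcod)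
  have hd : ∀ x, (f x).Dom := by
    intro x
    rw [h1]
    by_cases hx : x.1 < 1600
    · exact ⟨[], Or.inl hx⟩
    · push Not at hx
      have ha : 40 ≤ Nat.sqrt x.1 := by rw [Nat.le_sqrt]; omega
      have hc := (hC (Nat.sqrt x.1)).resolve_left (by omega)
      have h3 := few_biased hc (yb x.2 (st x.1))
      refine ⟨((Finset.range (2 ^ 2 ^ (Nat.sqrt x.1 / 2))).filter
        (fun v => (2 ^ Nat.sqrt x.1) ^ 2 < (Nat.sqrt x.1 + 1) *
          bias (wd (cod (Nat.sqrt x.1)) v) (yb x.2 (st x.1)) (2 ^ Nat.sqrt x.1) ^ 2)).toList,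
        Or.inr ⟨?_, fun v hv => ?_⟩⟩
      · rw [Finset.length_toList]
        have h4 : Nat.sqrt x.1 * Nat.sqrt x.1 ≤ x.1 := Nat.sqrt_le _
        have h5 : 40 * Nat.sqrt x.1 ≤ Nat.sqrt x.1 * Nat.sqrt x.1 := Nat.mul_le_mul_right _ ha
        omega
      · rw [Finset.mem_toList, Finset.mem_filter, Finset.mem_range]
        rcases le_or_gt ((Nat.sqrt x.1 + 1) *
          bias (wd (cod (Nat.sqrt x.1)) v) (yb x.2 (st x.1)) (2 ^ Nat.sqrt x.1) ^ 2)
          ((2 ^ Nat.sqrt x.1) ^ 2) with h | h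
        · exact Or.inl h
        · exact Or.inr ⟨hv, h⟩
  exact ⟨fun x => (f x).get (hd x), hf.of_eq_tot fun x => Part.get_mem _,
    fun x => h2 x _ (Part.get_mem _)⟩

theorem sq2 (m : ℕ) (hm : 13 ≤ m) : 32 * (m + 1) ^ 2 ≤ 2 ^ m := by
  induction m, hm using Nat.le_induction with
  | base => norm_num
  | succ m hm ih =>
    rw [pow_succ 2 m]
    have e1 : 32 * (m + 1 + 1) ^ 2 = 32 * m ^ 2 + 128 * m + 128 := by ring
    have e2 : 32 * (m + 1) ^ 2 = 32 * m ^ 2 + 64 * m + 32 := by ring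
    rw [e2] at ih
    rw [e1]
    have : 13 * m ≤ m ^ 2 := by rw [pow_two]; exact Nat.mul_le_mul_right _ hm
    omega

theorem fits {n : ℕ} (hn : 3600 ≤ n) :
    (2 ^ 2 ^ (Nat.sqrt n / 4)) ^ (2 * n + 1) ≤ 2 ^ 2 ^ (Nat.sqrt n / 2) := by
  set a := Nat.sqrt n with ha
  have ha60 : 60 ≤ a := by rw [ha, Nat.le_sqrt]; omega
  have h1 : n < (a + 1) * (a + 1) := by rw [ha]; exact Nat.sqrt_lt.1 (Nat.lt_succ_self _)
  rw [← pow_mul]
  refine Nat.pow_le_pow_right (by norm_num) ?_
  have h2 := sq2 (a / 4) (by omega)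
  have h3 : a + 1 ≤ 4 * (a / 4 + 1) := by omega
  have h4 : 2 * n + 1 ≤ 2 ^ (a / 4) := by
    calc 2 * n + 1 ≤ 2 * ((a + 1) * (a + 1)) := by omega
      _ ≤ 2 * ((4 * (a / 4 + 1)) * (4 * (a / 4 + 1))) :=
          Nat.mul_le_mul_left _ (Nat.mul_le_mul h3 h3)
      _ = 32 * (a / 4 + 1) ^ 2 := by ring
      _ ≤ _ := h2
  calc 2 ^ (a / 4) * (2 * n + 1) ≤ 2 ^ (a / 4) * 2 ^ (a / 4) := Nat.mul_le_mul_left _ h4
    _ = 2 ^ (a / 4 + a / 4) := by rw [pow_add]
    _ ≤ 2 ^ (a / 2) := Nat.pow_le_pow_right (by norm_num) (by omega)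

/-- the index of the evading code word -/
def ev (ρ : ℕ → ℕ) (n : ℕ) : ℕ :=
  enc (2 ^ 2 ^ (Nat.sqrt n / 4)) (fun i => ρ (n ^ 2 + i)) (2 * n + 1)

theorem cev {α : Type*} [Primcodable α] {ρ : ℕ → ℕ} (hρ : Computable ρ) {f : α → ℕ}
    (hf : Computable f) : Computable fun x => ev ρ (f x) := by
  unfold ev
  refine cenc (by fun_prop) ?_ (by fun_prop)
  exact hρ.comp (by fun_prop)

theorem sqrt_sq_add {n k : ℕ} (hk : k < 2 * n + 1) : Nat.sqrt (n ^ 2 + k) = n := by
  symm
  rw [Nat.eq_sqrt']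
  constructor
  · omega
  · have : (n + 1) ^ 2 = n ^ 2 + 2 * n + 1 := by ring
    omega

theorem evade {cod : ℕ → List (List Bool)} (hcod : Computable cod) (hC : ∀ a, CR a (cod a))
    (y : ℕ → ℕ) : ∃ F : ℕ → ℕ, TuringReducible (F : ℕ →. ℕ) (y : ℕ →. ℕ) ∧
      ∀ ρ : ℕ → ℕ, (∀ m, ρ m < 2 ^ 2 ^ (Nat.sqrt (Nat.sqrt m) / 4)) →
        (∀ᶠ m in atTop, F m ≠ ρ m) → ∀ᶠ n in atTop,
          (Nat.sqrt n + 1) * bias (wd (cod (Nat.sqrt n)) (ev ρ n))
            (fun l => decide (y (st n + l) = 1)) (2 ^ Nat.sqrt n) ^ 2 ≤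
              (2 ^ Nat.sqrt n) ^ 2 := by
  obtain ⟨sel, hsel, hV⟩ := exists_sel2 hcod hC
  refine ⟨fun m => dec (2 ^ 2 ^ (Nat.sqrt (Nat.sqrt m) / 4))
    ((sel (Nat.sqrt m, hist y (st (Nat.sqrt m + 1)))).getD (m - Nat.sqrt m ^ 2) 0)
    (m - Nat.sqrt m ^ 2), ?_, ?_⟩
  · refine red_of_tt (Φ := fun m L => dec (2 ^ 2 ^ (Nat.sqrt (Nat.sqrt m) / 4))
      ((sel (Nat.sqrt m, L)).getD (m - Nat.sqrt m ^ 2) 0) (m - Nat.sqrt m ^ 2))
      (u := fun m => st (Nat.sqrt m + 1)) ?_ (by fun_prop) fun m => rfl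
    have h1 : Computable fun x : ℕ × List ℕ => sel (Nat.sqrt x.1, x.2) :=
      hsel.comp (by fun_prop)
    unfold Computable₂
    exact QE.cdec (by fun_prop) (QE.cgetD h1 (by fun_prop)) (by fun_prop)
  · intro ρ hρ hF
    obtain ⟨m0, hm0⟩ := eventually_atTop.1 hF
    rw [eventually_atTop]
    refine ⟨3600 + m0, fun n hn => ?_⟩
    by_contra hcon
    have hlt : ∀ i < 2 * n + 1, (fun i => ρ (n ^ 2 + i)) i < 2 ^ 2 ^ (Nat.sqrt n / 4) := by
      intro i hi
      have h1 := hρ (n ^ 2 + i)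
      rw [sqrt_sq_add hi] at h1
      exact h1
    have hev : ev ρ n < 2 ^ 2 ^ (Nat.sqrt n / 2) :=
      lt_of_lt_of_le (enc_lt hlt) (fits (by omega))
    set x : ℕ × List ℕ := (n, hist y (st (n + 1))) with hx
    have hyb : ∀ l < 2 ^ Nat.sqrt n, yb x.2 (st x.1) l = decide (y (st n + l) = 1) := by
      intro l hl
      unfold yb
      rw [hx, hist_getD]
      rw [st_succ]
      simp only
      omega
    have hmem : ev ρ n ∈ sel x := by
      have h1 := (hV x).resolve_left (by rw [hx]; simp only; omega)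
      refine (h1.2 (ev ρ n) hev).resolve_left fun h2 => hcon ?_
      rw [bias_congr (fun l _ => rfl) hyb] at h2
      exact h2
    have hlen := ((hV x).resolve_left (by rw [hx]; simp only; omega)).1
    obtain ⟨k, hk, hk1⟩ := List.getElem_of_mem hmem
    have hk2 : k < 2 * n + 1 := by
      have : x.1 = n := rfl
      rw [this] at hlen
      omega
    refine hm0 (n ^ 2 + k) ?_ ?_
    · have : n ≤ n ^ 2 := Nat.le_self_pow (by norm_num) n
      omega
    · simp only [sqrt_sq_add hk2]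
      have e1 : n ^ 2 + k - n ^ 2 = k := by omega
      rw [e1, ← hx, List.getD_eq_getElem _ _ hk, hk1]
      unfold ev
      rw [enc_dec hlt hk2]

end Pool.Agent.X43.GA
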