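import Pool.Agent.X43.GA.C

/-! The density of the agreement. -/

set_option autoImplicit false

namespace Pool.Agent.X43.GA

open Filter Topology

/-- signed agreement -/
noncomputable def sm (u v : ℕ → Bool) (T : ℕ) : ℝ := ∑ i ∈ Finset.range T, sg (u i) * sg (v i)

theorem sm_eq_ip (u v : ℕ → Bool) (T : ℕ) : sm u v T = ip T u v := rfl

theorem sm_add (u v : ℕ → Bool) (s l : ℕ) :
    sm u v (s + l) = sm u v s + ip l (fun i => u (s + i)) (fun i => v (s + i)) := by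
  unfold sm ip
  rw [Finset.sum_range_add]

theorem ip_abs_le (u v : ℕ → Bool) (l : ℕ) : |ip l u v| ≤ l := by
  unfold ip
  refine (Finset.abs_sum_le_sum_abs _ _).trans ?_
  simp [abs_mul, sg_abs]

theorem st_large {a n : ℕ} (ha : 1 ≤ a) (hn : Nat.sqrt n = a) :
    (2 * a - 1) * 2 ^ (a - 1) ≤ st n := by
  have h1 : ∀ k, st ((a - 1) ^ 2) + k * 2 ^ (a - 1) ≤ st ((a - 1) ^ 2 + k) := by
    intro k
    induction k with
    | zero => simp
    | succ k ih =>
      rw [← Nat.add_assoc, st_succ]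
      have h2 : a - 1 ≤ Nat.sqrt ((a - 1) ^ 2 + k) := by
        rw [Nat.le_sqrt']; omega
      have h3 : 2 ^ (a - 1) ≤ 2 ^ Nat.sqrt ((a - 1) ^ 2 + k) :=
        Nat.pow_le_pow_right (by norm_num) h2
      rw [Nat.add_mul, one_mul]
      omega
  have h2 := h1 (2 * a - 1)
  have h3 : (a - 1) ^ 2 + (2 * a - 1) = a ^ 2 := by
    obtain ⟨b, rfl⟩ : ∃ b, a = b + 1 := ⟨a - 1, by omega⟩
    simp only [Nat.add_sub_cancel]
    have : (b + 1) ^ 2 = b ^ 2 + (2 * b + 1) := by ring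
    omega
  rw [h3] at h2
  have h4 : a ^ 2 ≤ n := by rw [← hn]; exact Nat.sqrt_le' n
  have h5 : st (a ^ 2) ≤ st n := st_strictMono.monotone h4
  omega

/-- blocks are short compared with their starting point -/
theorem block_small {ε : ℝ} (hε : 0 < ε) :
    ∀ᶠ n : ℕ in atTop, ((2 : ℝ) ^ Nat.sqrt n) ≤ ε * st n := by
  obtain ⟨M, hM⟩ := exists_nat_gt (2 / ε)
  rw [eventually_atTop]
  refine ⟨(M + 1) ^ 2, fun n hn => ?_⟩
  have ha : M + 1 ≤ Nat.sqrt n := by rw [Nat.le_sqrt']; exact hn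
  obtain ⟨b, hb⟩ : ∃ b, Nat.sqrt n = b + 1 := ⟨Nat.sqrt n - 1, by omega⟩
  have h1 := st_large (a := Nat.sqrt n) (by omega) rfl
  rw [hb] at h1 ⊢
  have e1 : 2 * (b + 1) - 1 = 2 * b + 1 := by omega
  have e2 : b + 1 - 1 = b := by omega
  rw [e1, e2] at h1
  have h2 : ((2 : ℝ) * b + 1) * 2 ^ b ≤ st n := by exact_mod_cast h1
  have h3 : (M : ℝ) ≤ b := by
    have : M ≤ b := by omega
    exact_mod_cast this
  have h4 : 2 < ε * M := by
    rw [div_lt_iff₀ hε] at hM; linarith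
  have h5 : 2 < ε * b := by nlinarith
  have h6 : (0 : ℝ) < 2 ^ b := by positivity
  have h7 : ε * ((2 * b + 1) * 2 ^ b) ≤ ε * st n := mul_le_mul_of_nonneg_left h2 hε.le
  have h8 : (2 : ℝ) ^ (b + 1) = 2 * 2 ^ b := by ring
  rw [h8]
  have h9 : 2 * (2 : ℝ) ^ b ≤ ε * ((2 * b + 1) * 2 ^ b) := by
    have : ε * ((2 * b + 1) * 2 ^ b) = (2 * (ε * b) + ε) * 2 ^ b := by ring
    rw [this]
    exact mul_le_mul_of_nonneg_right (by linarith) h6.le
  linarith

theorem tendsto_sm {u v : ℕ → Bool}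
    (h : ∀ᶠ n in atTop, (Nat.sqrt n + 1) * bias (fun l => u (st n + l))
      (fun l => v (st n + l)) (2 ^ Nat.sqrt n) ^ 2 ≤ (2 ^ Nat.sqrt n) ^ 2) :
    Tendsto (fun T : ℕ => sm u v T / T) atTop (𝓝 0) := by
  have hblock : ∀ ε : ℝ, 0 < ε → ∀ᶠ n : ℕ in atTop,
      |ip (2 ^ Nat.sqrt n) (fun l => u (st n + l)) (fun l => v (st n + l))| ≤
        ε * 2 ^ Nat.sqrt n := by
    intro ε hε
    obtain ⟨M, hM⟩ := exists_nat_gt (1 / ε ^ 2)
    filter_upwards [h, eventually_ge_atTop (M ^ 2)] with n hn hnM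
    rw [← bias_ip]
    have h1 : ((Nat.sqrt n : ℝ) + 1) * (bias (fun l => u (st n + l)) (fun l => v (st n + l))
        (2 ^ Nat.sqrt n) : ℝ) ^ 2 ≤ ((2 : ℝ) ^ Nat.sqrt n) ^ 2 := by exact_mod_cast hn
    have h2 : (M : ℝ) ≤ Nat.sqrt n := by
      have : M ≤ Nat.sqrt n := by rw [Nat.le_sqrt']; exact hnM
      exact_mod_cast this
    refine le_of_sq_le_sq ?_ (by positivity)
    have h3 : 1 < ε ^ 2 * ((Nat.sqrt n : ℝ) + 1) := by
      rw [div_lt_iff₀ (by positivity)] at hM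
      nlinarith [sq_nonneg ε]
    rw [mul_pow]
    set b := (bias (fun l => u (st n + l)) (fun l => v (st n + l)) (2 ^ Nat.sqrt n) : ℝ)
    have h4 : b ^ 2 * 1 ≤ b ^ 2 * (ε ^ 2 * ((Nat.sqrt n : ℝ) + 1)) :=
      mul_le_mul_of_nonneg_left h3.le (sq_nonneg _)
    have h5 : ε ^ 2 * (((Nat.sqrt n : ℝ) + 1) * b ^ 2) ≤ ε ^ 2 * ((2 : ℝ) ^ Nat.sqrt n) ^ 2 :=
      mul_le_mul_of_nonneg_left h1 (sq_nonneg _)
    linarith
  rw [Metric.tendsto_atTop]
  intro ε hε
  have hε3 : 0 < ε / 4 := by positivity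
  obtain ⟨n1, hn1⟩ := eventually_atTop.1 ((hblock _ hε3).and (block_small hε3))
  -- bound at the starting points
  have hst : ∀ k, |sm u v (st (n1 + k))| ≤ st n1 + ε / 4 * st (n1 + k) := by
    intro k
    induction k with
    | zero =>
      rw [Nat.add_zero, sm_eq_ip]
      have := ip_abs_le u v (st n1)
      have h0 : (0 : ℝ) ≤ ε / 4 * st n1 := by positivity
      linarith
    | succ k ih =>
      rw [← Nat.add_assoc, st_succ, sm_add]
      have h1 := (hn1 (n1 + k) (by omega)).1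
      have h2 := abs_add_le (sm u v (st (n1 + k))) (ip (2 ^ Nat.sqrt (n1 + k))
        (fun i => u (st (n1 + k) + i)) (fun i => v (st (n1 + k) + i)))
      push_cast
      have h3 : ε / 4 * ((st (n1 + k) : ℝ) + 2 ^ Nat.sqrt (n1 + k)) =
        ε / 4 * st (n1 + k) + ε / 4 * 2 ^ Nat.sqrt (n1 + k) := by ring
      rw [h3]
      linarith
  obtain ⟨M, hM⟩ := exists_nat_gt ((st n1 : ℝ) * 4 / ε)
  refine ⟨max (st n1) M + 1, fun T hT => ?_⟩
  have hT1 : st n1 ≤ T := by have := le_max_left (st n1) M; omega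
  have hT2 : M ≤ T := by have := le_max_right (st n1) M; omega
  have hT0 : (0 : ℝ) < T := by
    have : 0 < T := by omega
    exact_mod_cast this
  obtain ⟨n, hn2, hn3⟩ := exists_bl T
  have hn4 : n1 ≤ n := by
    by_contra hcon
    have : st (n + 1) ≤ st n1 := st_strictMono.monotone (by omega)
    omega
  obtain ⟨k, rfl⟩ : ∃ k, n = n1 + k := ⟨n - n1, by omega⟩
  obtain ⟨l, rfl⟩ : ∃ l, T = st (n1 + k) + l := ⟨T - st (n1 + k), by omega⟩
  rw [st_succ] at hn3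
  have hl : l ≤ 2 ^ Nat.sqrt (n1 + k) := by omega
  have h1 := hst k
  have h2 := (hn1 (n1 + k) (by omega)).2
  have h3 := ip_abs_le (fun i => u (st (n1 + k) + i)) (fun i => v (st (n1 + k) + i)) l
  have h4 : (l : ℝ) ≤ 2 ^ Nat.sqrt (n1 + k) := by exact_mod_cast hl
  have h5 := abs_add_le (sm u v (st (n1 + k))) (ip l
    (fun i => u (st (n1 + k) + i)) (fun i => v (st (n1 + k) + i)))
  rw [Real.dist_eq, sub_zero, abs_div, abs_of_pos hT0, div_lt_iff₀ hT0, sm_add]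
  have h6 : (st n1 : ℝ) * 4 < ε * ((st (n1 + k) + l : ℕ) : ℝ) := by
    have : (M : ℝ) ≤ ((st (n1 + k) + l : ℕ) : ℝ) := by exact_mod_cast hT2
    rw [div_lt_iff₀ hε] at hM
    nlinarith
  push_cast at h6 ⊢
  have h7 : (0 : ℝ) ≤ l := Nat.cast_nonneg _
  have h8 : 0 ≤ ε * l := by positivity
  have h9 : (0 : ℝ) ≤ st (n1 + k) := Nat.cast_nonneg _
  have h10 : 0 ≤ ε * st (n1 + k) := by positivity
  nlinarith

theorem tendsto_ag {u v : ℕ → Bool}
    (h : ∀ᶠ n in atTop, (Nat.sqrt n + 1) * bias (fun l => u (st n + l))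
      (fun l => v (st n + l)) (2 ^ Nat.sqrt n) ^ 2 ≤ (2 ^ Nat.sqrt n) ^ 2) :
    Tendsto (fun T : ℕ => (ag u v T : ℝ) / T) atTop (𝓝 (1 / 2)) := by
  have h1 := tendsto_sm h
  have h2 : Tendsto (fun T : ℕ => 1 / 2 + (sm u v T / T) / 2) atTop (𝓝 (1 / 2 + 0 / 2)) :=
    tendsto_const_nhds.add (h1.div_const 2)
  rw [zero_div, add_zero] at h2
  refine h2.congr' ?_
  filter_upwards [eventually_ge_atTop 1] with T hT
  have hT0 : (0 : ℝ) < T := by
    have : 0 < T := hT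
    exact_mod_cast this
  rw [sm_eq_ip, ip_ag]
  field_simp
  ring

/-- The main construction: if every function reducible to `y` is eventually different from some
computable function below the bound, then some computable set agrees with `y` with density
`1/2`. -/
theorem main (y : ℕ → ℕ) (hy : ∀ F : ℕ → ℕ, TuringReducible (F : ℕ →. ℕ) (y : ℕ →. ℕ) →
    ∃ ρ : ℕ → ℕ, Computable ρ ∧ (∀ m, ρ m < 2 ^ 2 ^ (Nat.sqrt (Nat.sqrt m) / 4)) ∧
      ∀ᶠ m in atTop, F m ≠ ρ m) :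
    ∃ A : ℕ → Bool, Computable A ∧
      Tendsto (fun T : ℕ => (ag A (fun i => decide (y i = 1)) T : ℝ) / T) atTop (𝓝 (1 / 2)) := by
  obtain ⟨cod, hcod, hC⟩ := exists_cod
  obtain ⟨F, hF, hev⟩ := evade hcod hC y
  obtain ⟨ρ, hρ, hρ1, hρ2⟩ := hy F hF
  have h1 := hev ρ hρ1 hρ2
  refine ⟨fun m => wd (cod (Nat.sqrt (bl m))) (ev ρ (bl m)) (m - st (bl m)), ?_, ?_⟩
  · have hbl : Computable fun m : ℕ => bl m := cbl Computable.id
    exact cwd (hcod.comp (QE.csqrt hbl)) (cev hρ hbl)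
      (Pool.Agent.Helper446.RE.csub Computable.id (cst hbl))
  · refine tendsto_ag ?_
    filter_upwards [h1] with n hn
    have e : bias (fun l => wd (cod (Nat.sqrt (bl (st n + l)))) (ev ρ (bl (st n + l)))
        (st n + l - st (bl (st n + l)))) (fun l => decide (y (st n + l) = 1)) (2 ^ Nat.sqrt n) =
        bias (wd (cod (Nat.sqrt n)) (ev ρ n)) (fun l => decide (y (st n + l) = 1))
          (2 ^ Nat.sqrt n) := by
      refine bias_congr (fun l hl => ?_) fun l _ => rfl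
      have : bl (st n + l) = n := bl_eq (by omega) (by rw [st_succ]; omega)
      rw [this, Nat.add_sub_cancel_left]
    rw [e]
    exact hn

end Pool.Agent.X43.GA
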